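import Pool.Agent.BEW.StmtsA

/-!
# Squad BEW, row AQF: the quadratic form averages out
-/

set_option autoImplicit false

namespace Pool.Agent.BEW.H59

open Set Filter Topology MeasureTheory
open scoped InnerProductSpace ENNReal
open Pool.Agent.BEW

theorem amp (a c : ℝ) : ∃ Q ψ : ℝ, 0 ≤ Q ∧ Q ^ 2 = a ^ 2 + c ^ 2 ∧
    ∀ x, a * Real.cos x + c * Real.sin x = Q * Real.cos (x + ψ) := by
  refine ⟨‖(⟨a, -c⟩ : ℂ)‖, Complex.arg ⟨a, -c⟩, norm_nonneg _, ?_, fun x => ?_⟩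
  · rw [← Complex.normSq_eq_norm_sq, Complex.normSq_mk]
    ring
  · have h1 := Complex.norm_mul_cos_arg (⟨a, -c⟩ : ℂ)
    have h2 := Complex.norm_mul_sin_arg (⟨a, -c⟩ : ℂ)
    rw [Real.cos_add]
    simp only at h1 h2
    linear_combination (-Real.cos x) * h1 + Real.sin x * h2

theorem osc_eq (ν χ T : ℝ) (hν : ν ≠ 0) :
    ∫ s in (0 : ℝ)..T, Real.cos (ν * s + χ) = (Real.sin (ν * T + χ) - Real.sin χ) / ν := by
  rw [intervalIntegral.integral_comp_mul_add (fun x => Real.cos x) hν χ, integral_cos]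
  rw [mul_zero, zero_add, smul_eq_mul]
  ring

theorem osc_bound (ν χ T : ℝ) (hν : ν ≠ 0) :
    |∫ s in (0 : ℝ)..T, Real.cos (ν * s + χ)| ≤ 2 / |ν| := by
  rw [osc_eq ν χ T hν, abs_div]
  apply div_le_div_of_nonneg_right _ (abs_nonneg _)
  have h1 := abs_le.1 (Real.abs_sin_le_one (ν * T + χ))
  have h2 := abs_le.1 (Real.abs_sin_le_one χ)
  rw [abs_le]
  constructor <;> linarith [h1.1, h1.2, h2.1, h2.2]

theorem osc_le (ν χ T δ M : ℝ) (hδ : 0 < δ) (hM : 0 < M) (h : δ * M ≤ |ν|) :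
    |∫ s in (0 : ℝ)..T, Real.cos (ν * s + χ)| ≤ 2 / δ * (1 / M) := by
  have h0 : 0 < |ν| := lt_of_lt_of_le (mul_pos hδ hM) h
  refine (osc_bound ν χ T (abs_pos.1 h0)).trans ?_
  rw [div_mul_div_comm, mul_one]
  exact div_le_div_of_nonneg_left (by norm_num) (mul_pos hδ hM) h

theorem cos3 (a b c : ℝ) : Real.cos a * Real.cos b * Real.cos c =
    1 / 4 * (Real.cos (b - c + a) + Real.cos (b - c - a) + Real.cos (b + c + a) +
      Real.cos (b + c - a)) := by
  simp only [Real.cos_add, Real.cos_sub, Real.sin_add, Real.sin_sub]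
  ring

theorem tri (ν₀ ν₁ ν₂ χ₀ χ₁ χ₂ T : ℝ) :
    ∫ s in (0 : ℝ)..T, Real.cos (ν₀ * s + χ₀) * Real.cos (ν₁ * s + χ₁) * Real.cos (ν₂ * s + χ₂) =
    1 / 4 * ((∫ s in (0 : ℝ)..T, Real.cos ((ν₁ - ν₂ + ν₀) * s + (χ₁ - χ₂ + χ₀))) +
      (∫ s in (0 : ℝ)..T, Real.cos ((ν₁ - ν₂ - ν₀) * s + (χ₁ - χ₂ - χ₀))) +
      (∫ s in (0 : ℝ)..T, Real.cos ((ν₁ + ν₂ + ν₀) * s + (χ₁ + χ₂ + χ₀))) +
      ∫ s in (0 : ℝ)..T, Real.cos ((ν₁ + ν₂ - ν₀) * s + (χ₁ + χ₂ - χ₀))) := by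
  have hi : ∀ ν χ : ℝ, IntervalIntegrable (fun s => Real.cos (ν * s + χ)) volume 0 T :=
    fun ν χ => Continuous.intervalIntegrable (by fun_prop) _ _
  rw [← intervalIntegral.integral_add (hi _ _) (hi _ _),
    ← intervalIntegral.integral_add ((hi _ _).add (hi _ _)) (hi _ _),
    ← intervalIntegral.integral_add (((hi _ _).add (hi _ _)).add (hi _ _)) (hi _ _),
    ← intervalIntegral.integral_const_mul]
  apply intervalIntegral.integral_congr
  intro s _
  simp only []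
  rw [cos3]
  ring_nf

theorem rowb (S : Finset ℕ) (w k : ℕ → ℝ) (G : ℝ) (hG : 0 ≤ G) (h1 : ∑ l ∈ S, w l ^ 2 ≤ G ^ 2)
    (h2 : ∑ l ∈ S, k l ^ 2 ≤ 4) : ∑ l ∈ S, |w l| * k l ≤ 2 * G := by
  have h := Finset.sum_mul_sq_le_sq_mul_sq S (fun l => |w l|) k
  simp only [sq_abs] at h
  have h3 : (∑ l ∈ S, w l ^ 2) * ∑ l ∈ S, k l ^ 2 ≤ G ^ 2 * 4 :=
    mul_le_mul h1 h2 (Finset.sum_nonneg fun _ _ => sq_nonneg _) (sq_nonneg _)
  by_contra hc
  push Not at hc
  nlinarith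

theorem schur (S : Finset ℕ) (W K : ℕ → ℕ → ℝ) (A : ℕ → ℝ) (G : ℝ) (hG : 0 ≤ G)
    (hK : ∀ k l, 0 ≤ K k l)
    (hW1 : ∀ k, ∑ l ∈ S, W k l ^ 2 ≤ G ^ 2) (hW2 : ∀ l, ∑ k ∈ S, W k l ^ 2 ≤ G ^ 2)
    (hK1 : ∀ k, ∑ l ∈ S, K k l ^ 2 ≤ 4) (hK2 : ∀ l, ∑ k ∈ S, K k l ^ 2 ≤ 4) :
    ∑ k ∈ S, ∑ l ∈ S, |W k l| * K k l * (A k * A l) ≤ 2 * G * ∑ k ∈ S, A k ^ 2 := by
  have h1 : ∑ k ∈ S, ∑ l ∈ S, |W k l| * K k l * (A k * A l) ≤
      ∑ k ∈ S, ∑ l ∈ S, (|W k l| * K k l * (A k ^ 2 / 2) + |W k l| * K k l * (A l ^ 2 / 2)) := by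
    refine Finset.sum_le_sum fun k _ => Finset.sum_le_sum fun l _ => ?_
    rw [← mul_add]
    exact mul_le_mul_of_nonneg_left (by nlinarith [sq_nonneg (A k - A l)])
      (mul_nonneg (abs_nonneg _) (hK k l))
  refine h1.trans ?_
  simp only [Finset.sum_add_distrib]
  have h2 : ∑ k ∈ S, ∑ l ∈ S, |W k l| * K k l * (A k ^ 2 / 2) ≤ G * ∑ k ∈ S, A k ^ 2 := by
    rw [Finset.mul_sum]
    refine Finset.sum_le_sum fun k _ => ?_
    rw [← Finset.sum_mul]
    have := mul_le_mul_of_nonneg_right (rowb S (W k) (K k) G hG (hW1 k) (hK1 k))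
      (show (0 : ℝ) ≤ A k ^ 2 / 2 by positivity)
    linarith
  have h3 : ∑ k ∈ S, ∑ l ∈ S, |W k l| * K k l * (A l ^ 2 / 2) ≤ G * ∑ k ∈ S, A k ^ 2 := by
    rw [Finset.sum_comm, Finset.mul_sum]
    refine Finset.sum_le_sum fun l _ => ?_
    rw [← Finset.sum_mul]
    have := mul_le_mul_of_nonneg_right (rowb S (fun k => W k l) (fun k => K k l) G hG (hW2 l)
      (hK2 l)) (show (0 : ℝ) ≤ A l ^ 2 / 2 by positivity)
    linarith
  linarith

theorem nsum' (N : ℕ) :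
    ∑ n ∈ Finset.range (N + 1), (1 / (1 + (n : ℝ))) ^ 2 ≤ 2 - 1 / ((N : ℝ) + 1) := by
  induction N with
  | zero => norm_num
  | succ N ih =>
    rw [Finset.sum_range_succ]
    push_cast
    have h1 : (1 / (1 + ((N : ℝ) + 1))) ^ 2 ≤ 1 / ((N : ℝ) + 1) - 1 / ((N : ℝ) + 1 + 1) := by
      have hN : (0 : ℝ) ≤ N := Nat.cast_nonneg N
      rw [div_sub_div _ _ (by positivity) (by positivity), div_pow, div_le_div_iff₀ (by positivity)
        (by positivity)]
      nlinarith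
    linarith

theorem nsum (F : Finset ℕ) : ∑ n ∈ F, (1 / (1 + (n : ℝ))) ^ 2 ≤ 2 := by
  have h1 : ∑ n ∈ F, (1 / (1 + (n : ℝ))) ^ 2 ≤
      ∑ n ∈ Finset.range (F.sup id + 1), (1 / (1 + (n : ℝ))) ^ 2 :=
    Finset.sum_le_sum_of_subset_of_nonneg F.subset_range_sup_succ fun _ _ _ => sq_nonneg _
  have h2 := nsum' (F.sup id)
  have h3 : (0 : ℝ) ≤ 1 / ((F.sup id : ℕ) + 1) := by positivity
  linarith

theorem ksum (F : Finset ℤ) : ∑ i ∈ F, (1 / (1 + |(i : ℝ)|)) ^ 2 ≤ 4 := by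
  have key : ∀ F' : Finset ℤ, Set.InjOn Int.natAbs (F' : Set ℤ) →
      ∑ i ∈ F', (1 / (1 + |(i : ℝ)|)) ^ 2 ≤ 2 := by
    intro F' hinj
    have h1 : ∑ i ∈ F', (1 / (1 + |(i : ℝ)|)) ^ 2 =
        ∑ n ∈ F'.image Int.natAbs, (1 / (1 + (n : ℝ))) ^ 2 := by
      rw [Finset.sum_image hinj]
      refine Finset.sum_congr rfl fun i _ => ?_
      rw [Nat.cast_natAbs, Int.cast_abs]
    rw [h1]
    exact nsum _
  rw [← Finset.sum_filter_add_sum_filter_not F (fun i => 0 ≤ i)]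
  have h1 := key (F.filter fun i => 0 ≤ i) (by
    intro a ha b hb hab
    simp only [Finset.coe_filter, Set.mem_ofPred_eq] at ha hb
    omega)
  have h2 := key (F.filter fun i => ¬ 0 ≤ i) (by
    intro a ha b hb hab
    simp only [Finset.coe_filter, Set.mem_ofPred_eq] at ha hb
    omega)
  linarith

theorem ksum' (S : Finset ℕ) (m : ℕ → ℤ) (hm : Function.Injective m) :
    ∑ l ∈ S, (1 / (1 + |(m l : ℝ)|)) ^ 2 ≤ 4 := by
  have h := ksum (S.image m)
  rwa [Finset.sum_image fun _ _ _ _ h => hm h] at h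

/-- The weights. -/
noncomputable def kap (m : ℤ) : ℝ := 1 / (1 + |(m : ℝ)|)

theorem kap_nonneg (m : ℤ) : 0 ≤ kap m := by unfold kap; positivity

theorem Ibd {om : ℕ → ℝ} {J : ℕ} {δ : ℝ} (hN : Nrs om J δ) (j k l : ℕ) (hj : j ≤ J) (hk : 1 ≤ k)
    (hl : 1 ≤ l) (φ : ℕ → ℝ) (χ₀ T : ℝ) :
    |(∫ s in (0 : ℝ)..T, Real.cos (j * om 0 * s + χ₀) * Real.cos (om k * s + φ k) *
      Real.cos (om l * s + φ l)) - (if j = 0 ∧ k = l then T / 2 * Real.cos χ₀ else 0)| ≤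
      1 / (2 * δ) * (kap ((k : ℤ) - l + j) + kap ((k : ℤ) - l - j) + kap ((k : ℤ) + l + 2 + j) +
        kap ((k : ℤ) + l + 2 - j)) := by
  have hδ := hN.pos
  have hjj : |(-(j : ℤ))| ≤ (J : ℤ) := by rw [abs_neg, abs_of_nonneg (by positivity)]; exact_mod_cast hj
  have hjj' : |(j : ℤ)| ≤ (J : ℤ) := by rw [abs_of_nonneg (by positivity)]; exact_mod_cast hj
  rw [tri]
  have b3 : |∫ s in (0 : ℝ)..T, Real.cos ((om k + om l + j * om 0) * s + (φ k + φ l + χ₀))| ≤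
      2 / δ * kap ((k : ℤ) + l + 2 + j) := by
    have := hN.n3 k l (-(j : ℤ)) hk hl hjj
    refine osc_le _ _ T δ (1 + |(((k : ℤ) + l + 2 + j : ℤ) : ℝ)|) hδ (by positivity) ?_
    push_cast at this ⊢
    have e1 : om k + om l + j * om 0 = om k + om l - -(j : ℝ) * om 0 := by ring
    have e2 : (k : ℝ) + l + 2 + j = k + l + 2 - -(j : ℝ) := by ring
    rw [e1, e2]
    exact this
  have b4 : |∫ s in (0 : ℝ)..T, Real.cos ((om k + om l - j * om 0) * s + (φ k + φ l - χ₀))| ≤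
      2 / δ * kap ((k : ℤ) + l + 2 - j) := by
    have := hN.n3 k l (j : ℤ) hk hl hjj'
    refine osc_le _ _ T δ (1 + |(((k : ℤ) + l + 2 - j : ℤ) : ℝ)|) hδ (by positivity) ?_
    push_cast at this ⊢
    exact this
  by_cases hc : j = 0 ∧ k = l
  · rw [if_pos hc]
    obtain ⟨rfl, rfl⟩ := hc
    have e1 : ∫ s in (0 : ℝ)..T, Real.cos ((om k - om k + ((0 : ℕ) : ℝ) * om 0) * s +
        (φ k - φ k + χ₀)) = T * Real.cos χ₀ := by simp
    have e2 : ∫ s in (0 : ℝ)..T, Real.cos ((om k - om k - ((0 : ℕ) : ℝ) * om 0) * s +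
        (φ k - φ k - χ₀)) = T * Real.cos χ₀ := by simp
    rw [e1, e2]
    have p1 := mul_nonneg (show 0 ≤ 1 / (2 * δ) by positivity) (kap_nonneg ((k : ℤ) - k + (0 : ℕ)))
    have p2 := mul_nonneg (show 0 ≤ 1 / (2 * δ) by positivity) (kap_nonneg ((k : ℤ) - k - (0 : ℕ)))
    have e3 : 2 / δ = 4 * (1 / (2 * δ)) := by field_simp; norm_num
    rw [e3] at b3 b4
    rw [abs_le] at b3 b4 ⊢
    constructor <;> nlinarith [b3.1, b3.2, b4.1, b4.2]
  · rw [if_neg hc, sub_zero]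
    have b1 : |∫ s in (0 : ℝ)..T, Real.cos ((om k - om l + j * om 0) * s + (φ k - φ l + χ₀))| ≤
        2 / δ * kap ((k : ℤ) - l + j) := by
      have := hN.n2 k l (-(j : ℤ)) hk hl hjj (by intro h; exact hc ⟨by omega, h.2⟩)
      refine osc_le _ _ T δ (1 + |(((k : ℤ) - l + j : ℤ) : ℝ)|) hδ (by positivity) ?_
      push_cast at this ⊢
      have e1 : om k - om l + j * om 0 = om k - om l - -(j : ℝ) * om 0 := by ring
      have e2 : (k : ℝ) - l + j = k - l - -(j : ℝ) := by ring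
      rw [e1, e2]
      exact this
    have b2 : |∫ s in (0 : ℝ)..T, Real.cos ((om k - om l - j * om 0) * s + (φ k - φ l - χ₀))| ≤
        2 / δ * kap ((k : ℤ) - l - j) := by
      have := hN.n2 k l (j : ℤ) hk hl hjj' (by intro h; exact hc ⟨by omega, h.2⟩)
      refine osc_le _ _ T δ (1 + |(((k : ℤ) - l - j : ℤ) : ℝ)|) hδ (by positivity) ?_
      push_cast at this ⊢
      exact this
    have e3 : 2 / δ = 4 * (1 / (2 * δ)) := by field_simp; norm_num
    rw [e3] at b1 b2 b3 b4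
    rw [abs_le] at b1 b2 b3 b4 ⊢
    constructor <;> nlinarith [b3.1, b3.2, b4.1, b4.2, b1.1, b1.2, b2.1, b2.2]

theorem intg {X : Type} [MeasurableSpace X] {μ : Measure X} (hf : IsFiniteMeasure μ) {u : X → ℝ}
    (hu : Measurable u) (C : ℝ) (hC : ∀ x, |u x| ≤ C) : Integrable u μ :=
  Integrable.of_bound hu.aestronglyMeasurable C (Filter.Eventually.of_forall hC)

theorem form_eq {X : Type} [MeasurableSpace X] {μ : Measure X} {b : ℕ → X → ℝ} {B m0 : ℝ}
    (hO : Ons μ b B m0) (w : X → ℝ) (hw : Measurable w) (G : ℝ) (hwG : ∀ x, |w x| ≤ G)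
    (S : Finset ℕ) (h : ℕ → ℝ) :
    ∫ x, w x * (∑ k ∈ S, h k * b k x) ^ 2 ∂μ =
      ∑ k ∈ S, ∑ l ∈ S, h k * h l * ∫ x, w x * b k x * b l x ∂μ := by
  have hi : ∀ k l, Integrable (fun x => h k * h l * (w x * b k x * b l x)) μ := fun k l =>
    (intg hO.fin ((hw.mul (hO.meas k)).mul (hO.meas l)) (G * B * B) (fun x => by
      show |w x * b k x * b l x| ≤ G * B * B
      rw [abs_mul, abs_mul]
      have hG : 0 ≤ G := (abs_nonneg _).trans (hwG x)
      have hB : 0 ≤ B := (abs_nonneg _).trans (hO.bdd k x)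
      exact mul_le_mul (mul_le_mul (hwG x) (hO.bdd k x) (abs_nonneg _) hG) (hO.bdd l x)
        (abs_nonneg _) (mul_nonneg hG hB))).const_mul _
  have h1 : ∀ x, w x * (∑ k ∈ S, h k * b k x) ^ 2 =
      ∑ k ∈ S, ∑ l ∈ S, h k * h l * (w x * b k x * b l x) := by
    intro x
    rw [sq, Finset.sum_mul_sum, Finset.mul_sum]
    refine Finset.sum_congr rfl fun k _ => ?_
    rw [Finset.mul_sum]
    exact Finset.sum_congr rfl fun l _ => by ring
  simp only [h1]
  rw [integral_finsetSum _ fun k _ => integrable_finsetSum _ fun l _ => hi k l]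
  refine Finset.sum_congr rfl fun k _ => ?_
  rw [integral_finsetSum _ fun l _ => hi k l]
  exact Finset.sum_congr rfl fun l _ => integral_const_mul _ _

theorem form_bd (hBSL : BslStmt) {X : Type} [MeasurableSpace X] {μ : Measure X} {b : ℕ → X → ℝ}
    {B m0 : ℝ} (hO : Ons μ b B m0) (w : X → ℝ) (G : ℝ) (hwG : ∀ x, |w x| ≤ G)
    (S : Finset ℕ) (h : ℕ → ℝ) :
    |∫ x, w x * (∑ k ∈ S, h k * b k x) ^ 2 ∂μ| ≤ G * ∑ k ∈ S, h k ^ 2 := by
  rw [← (hBSL X μ b B m0 hO).2 S h, ← integral_const_mul, ← Real.norm_eq_abs]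
  refine norm_integral_le_of_norm_le ?_ (Filter.Eventually.of_forall fun x => ?_)
  · refine (intg hO.fin (u := fun x => (∑ k ∈ S, h k * b k x) ^ 2) ?_
      ((∑ k ∈ S, |h k| * B) ^ 2) fun x => ?_).const_mul G
    · exact (Finset.measurable_sum S fun k _ => (hO.meas k).const_mul (h k)).pow_const 2
    · rw [abs_pow]
      refine pow_le_pow_left₀ (abs_nonneg _) ?_ 2
      refine (Finset.abs_sum_le_sum_abs _ _).trans (Finset.sum_le_sum fun k _ => ?_)
      rw [abs_mul]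
      exact mul_le_mul_of_nonneg_left (hO.bdd k x) (abs_nonneg _)
  · rw [Real.norm_eq_abs, abs_mul, abs_of_nonneg (sq_nonneg (∑ k ∈ S, h k * b k x))]
    exact mul_le_mul_of_nonneg_right (hwG x) (sq_nonneg _)

theorem w_sq (hBSL : BslStmt) {X : Type} [MeasurableSpace X] {μ : Measure X} {b : ℕ → X → ℝ}
    {B m0 : ℝ} (hO : Ons μ b B m0) (w : X → ℝ) (hw : Measurable w) (G : ℝ) (hwG : ∀ x, |w x| ≤ G)
    (S : Finset ℕ) (k : ℕ) :
    ∑ l ∈ S, (∫ x, w x * b k x * b l x ∂μ) ^ 2 ≤ G ^ 2 := by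
  have hb : ∀ x, |w x * b k x| ≤ G * B := fun x => by
    rw [abs_mul]
    exact mul_le_mul (hwG x) (hO.bdd k x) (abs_nonneg _) ((abs_nonneg _).trans (hwG x))
  refine ((hBSL X μ b B m0 hO).1 S (fun x => w x * b k x) (hw.mul (hO.meas k))
    ⟨G * B, hb⟩).trans ?_
  have h1 : ∫ x, G ^ 2 * (b k x * b k x) ∂μ = G ^ 2 := by
    rw [integral_const_mul, hO.ort, if_pos rfl, mul_one]
  rw [← h1]
  refine integral_mono ?_ ?_ fun x => ?_
  · refine intg hO.fin ((hw.mul (hO.meas k)).pow_const 2) ((G * B) ^ 2) fun x => ?_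
    rw [abs_pow]
    exact pow_le_pow_left₀ (abs_nonneg _) (hb x) 2
  · refine (intg hO.fin ((hO.meas k).mul (hO.meas k)) (B * B) fun x => ?_).const_mul _
    show |b k x * b k x| ≤ B * B
    rw [abs_mul]
    exact mul_le_mul (hO.bdd k x) (hO.bdd k x) (abs_nonneg _)
      ((abs_nonneg _).trans (hO.bdd k x))
  · show (w x * b k x) ^ 2 ≤ G ^ 2 * (b k x * b k x)
    rw [mul_pow, ← sq (b k x), ← sq_abs (w x)]
    exact mul_le_mul_of_nonneg_right (pow_le_pow_left₀ (abs_nonneg _) (hwG x) 2) (sq_nonneg _)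

theorem expand (J : ℕ) (S : Finset ℕ) (Q ψ A φ om : ℕ → ℝ) (W : ℕ → ℕ → ℝ) (θ T : ℝ) :
    ∫ s in (0 : ℝ)..T, (∑ j ∈ Finset.range (J + 1), Q j * Real.cos (j * (om 0 * s + θ) + ψ j)) *
      (∑ k ∈ S, ∑ l ∈ S, A k * Real.cos (om k * s + φ k) * (A l * Real.cos (om l * s + φ l)) *
        W k l) =
    ∑ j ∈ Finset.range (J + 1), ∑ k ∈ S, ∑ l ∈ S, Q j * (A k * A l * W k l) *
      ∫ s in (0 : ℝ)..T, Real.cos (j * om 0 * s + (j * θ + ψ j)) * Real.cos (om k * s + φ k) *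
        Real.cos (om l * s + φ l) := by
  simp only [← intervalIntegral.integral_const_mul]
  have hi : ∀ j k l : ℕ, IntervalIntegrable (fun s => Q j * (A k * A l * W k l) *
      (Real.cos (j * om 0 * s + (j * θ + ψ j)) * Real.cos (om k * s + φ k) *
        Real.cos (om l * s + φ l))) volume 0 T :=
    fun j k l => Continuous.intervalIntegrable (by fun_prop) _ _
  have h1 : ∀ j k : ℕ, ∑ l ∈ S, ∫ s in (0 : ℝ)..T, Q j * (A k * A l * W k l) *
      (Real.cos (j * om 0 * s + (j * θ + ψ j)) * Real.cos (om k * s + φ k) *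
        Real.cos (om l * s + φ l)) = ∫ s in (0 : ℝ)..T, ∑ l ∈ S, Q j * (A k * A l * W k l) *
      (Real.cos (j * om 0 * s + (j * θ + ψ j)) * Real.cos (om k * s + φ k) *
        Real.cos (om l * s + φ l)) := fun j k =>
    (intervalIntegral.integral_finsetSum fun l _ => hi j k l).symm
  simp only [h1]
  have h2 : ∀ j : ℕ, ∑ k ∈ S, ∫ s in (0 : ℝ)..T, ∑ l ∈ S, Q j * (A k * A l * W k l) *
      (Real.cos (j * om 0 * s + (j * θ + ψ j)) * Real.cos (om k * s + φ k) *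
        Real.cos (om l * s + φ l)) = ∫ s in (0 : ℝ)..T, ∑ k ∈ S, ∑ l ∈ S,
      Q j * (A k * A l * W k l) *
      (Real.cos (j * om 0 * s + (j * θ + ψ j)) * Real.cos (om k * s + φ k) *
        Real.cos (om l * s + φ l)) := fun j =>
    (intervalIntegral.integral_finsetSum fun k _ =>
      Continuous.intervalIntegrable (by fun_prop) _ _).symm
  simp only [h2]
  rw [← intervalIntegral.integral_finsetSum fun j _ =>
      Continuous.intervalIntegrable (by fun_prop) _ _]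
  apply intervalIntegral.integral_congr
  intro s _
  simp only []
  rw [Finset.sum_mul]
  refine Finset.sum_congr rfl fun j _ => ?_
  rw [Finset.mul_sum]
  refine Finset.sum_congr rfl fun k _ => ?_
  rw [Finset.mul_sum]
  refine Finset.sum_congr rfl fun l _ => ?_
  have e : (j : ℝ) * (om 0 * s + θ) + ψ j = j * om 0 * s + (j * θ + ψ j) := by ring
  rw [e]
  ring

/-- The oscillating part of the form. -/
theorem osc_form {om : ℕ → ℝ} {J : ℕ} {δ : ℝ} (hN : Nrs om J δ) (S : Finset ℕ) (hS : 0 ∉ S)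
    (A φ : ℕ → ℝ) (hA : ∀ k, 0 ≤ A k) (W : ℕ → ℕ → ℝ) (G : ℝ) (hG : 0 ≤ G)
    (hW1 : ∀ k, ∑ l ∈ S, W k l ^ 2 ≤ G ^ 2) (hW2 : ∀ l, ∑ k ∈ S, W k l ^ 2 ≤ G ^ 2)
    (j : ℕ) (hj : j ≤ J) (χ₀ T : ℝ) :
    |∑ k ∈ S, ∑ l ∈ S, (A k * A l * W k l) *
      ((∫ s in (0 : ℝ)..T, Real.cos (j * om 0 * s + χ₀) * Real.cos (om k * s + φ k) *
        Real.cos (om l * s + φ l)) - (if j = 0 ∧ k = l then T / 2 * Real.cos χ₀ else 0))| ≤
      4 * G / δ * ∑ k ∈ S, A k ^ 2 := by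
  have hδ := hN.pos
  have hS1 : ∀ k ∈ S, 1 ≤ k := fun k hk => by
    rcases Nat.eq_zero_or_pos k with h | h
    · exact absurd (h ▸ hk) hS
    · exact h
  have s1 := schur S W (fun k l => kap ((k : ℤ) - l + j)) A G hG (fun _ _ => kap_nonneg _) hW1 hW2
    (fun k => ksum' S (fun l => (k : ℤ) - l + j) (fun a b h => by simp only at h; omega))
    (fun l => ksum' S (fun k => (k : ℤ) - l + j) (fun a b h => by simp only at h; omega))
  have s2 := schur S W (fun k l => kap ((k : ℤ) - l - j)) A G hG (fun _ _ => kap_nonneg _) hW1 hW2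
    (fun k => ksum' S (fun l => (k : ℤ) - l - j) (fun a b h => by simp only at h; omega))
    (fun l => ksum' S (fun k => (k : ℤ) - l - j) (fun a b h => by simp only at h; omega))
  have s3 := schur S W (fun k l => kap ((k : ℤ) + l + 2 + j)) A G hG (fun _ _ => kap_nonneg _)
    hW1 hW2
    (fun k => ksum' S (fun l => (k : ℤ) + l + 2 + j) (fun a b h => by simp only at h; omega))
    (fun l => ksum' S (fun k => (k : ℤ) + l + 2 + j) (fun a b h => by simp only at h; omega))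
  have s4 := schur S W (fun k l => kap ((k : ℤ) + l + 2 - j)) A G hG (fun _ _ => kap_nonneg _)
    hW1 hW2
    (fun k => ksum' S (fun l => (k : ℤ) + l + 2 - j) (fun a b h => by simp only at h; omega))
    (fun l => ksum' S (fun k => (k : ℤ) + l + 2 - j) (fun a b h => by simp only at h; omega))
  have h1 : |∑ k ∈ S, ∑ l ∈ S, (A k * A l * W k l) *
      ((∫ s in (0 : ℝ)..T, Real.cos (j * om 0 * s + χ₀) * Real.cos (om k * s + φ k) *
        Real.cos (om l * s + φ l)) - (if j = 0 ∧ k = l then T / 2 * Real.cos χ₀ else 0))| ≤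
      ∑ k ∈ S, ∑ l ∈ S, 1 / (2 * δ) * (|W k l| * kap ((k : ℤ) - l + j) * (A k * A l) +
        |W k l| * kap ((k : ℤ) - l - j) * (A k * A l) +
        |W k l| * kap ((k : ℤ) + l + 2 + j) * (A k * A l) +
        |W k l| * kap ((k : ℤ) + l + 2 - j) * (A k * A l)) := by
    refine (Finset.abs_sum_le_sum_abs _ _).trans (Finset.sum_le_sum fun k hk => ?_)
    refine (Finset.abs_sum_le_sum_abs _ _).trans (Finset.sum_le_sum fun l hl => ?_)
    rw [abs_mul, abs_mul, abs_of_nonneg (mul_nonneg (hA k) (hA l))]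
    have := mul_le_mul_of_nonneg_left (Ibd hN j k l hj (hS1 k hk) (hS1 l hl) φ χ₀ T)
      (mul_nonneg (mul_nonneg (hA k) (hA l)) (abs_nonneg (W k l)))
    refine this.trans (le_of_eq ?_)
    ring
  refine h1.trans ?_
  simp only [← Finset.mul_sum, Finset.sum_add_distrib]
  have h2 : 1 / (2 * δ) * (8 * G * ∑ k ∈ S, A k ^ 2) = 4 * G / δ * ∑ k ∈ S, A k ^ 2 := by
    field_simp
    ring
  rw [← h2]
  refine mul_le_mul_of_nonneg_left ?_ (by positivity)
  linarith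

theorem main_part (J : ℕ) (S : Finset ℕ) (Q A : ℕ → ℝ) (W : ℕ → ℕ → ℝ) (T : ℝ) (χ : ℕ → ℝ) :
    ∑ j ∈ Finset.range (J + 1), ∑ k ∈ S, ∑ l ∈ S, Q j * (A k * A l * W k l) *
      (if j = 0 ∧ k = l then T / 2 * Real.cos (χ j) else 0) =
    Q 0 * Real.cos (χ 0) * T * ∑ k ∈ S, A k ^ 2 / 2 * W k k := by
  rw [Finset.sum_eq_single 0]
  · rw [Finset.mul_sum]
    refine Finset.sum_congr rfl fun k hk => ?_
    rw [Finset.sum_eq_single k]
    · rw [if_pos ⟨rfl, rfl⟩]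
      ring
    · intro l _ hlk
      rw [if_neg (fun h => hlk h.2.symm), mul_zero]
    · intro h
      exact absurd hk h
  · intro j _ hj
    refine Finset.sum_eq_zero fun k _ => Finset.sum_eq_zero fun l _ => ?_
    rw [if_neg (fun h => hj h.1), mul_zero]
  · intro h
    exact absurd (Finset.mem_range.2 (Nat.succ_pos J)) h

/-- The mean value of the approximation. -/
theorem mean_q (f : ℝ → ℝ) (ε : ℝ) (J : ℕ) (Q ψ : ℕ → ℝ) (hf : Continuous f)
    (hq : ∀ θ, |f θ - ∑ j ∈ Finset.range (J + 1), Q j * Real.cos (j * θ + ψ j)| ≤ ε) :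
    |mn f - Q 0 * Real.cos (ψ 0)| ≤ ε := by
  have hp := Real.pi_pos
  have h1 : ∫ x in (0 : ℝ)..(2 * Real.pi), ∑ j ∈ Finset.range (J + 1), Q j * Real.cos (j * x + ψ j) =
      2 * Real.pi * (Q 0 * Real.cos (ψ 0)) := by
    rw [intervalIntegral.integral_finsetSum fun j _ =>
      Continuous.intervalIntegrable (by fun_prop) _ _]
    rw [Finset.sum_eq_single 0]
    · simp
      ring
    · intro j _ hj
      rw [intervalIntegral.integral_const_mul, osc_eq _ _ _ (Nat.cast_ne_zero.2 hj)]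
      have : (j : ℝ) * (2 * Real.pi) + ψ j = ψ j + (j : ℝ) * (2 * Real.pi) := by ring
      rw [this, Real.sin_add_nat_mul_two_pi, sub_self, zero_div, mul_zero]
    · intro h
      exact absurd (Finset.mem_range.2 (Nat.succ_pos J)) h
  have h2 : |∫ x in (0 : ℝ)..(2 * Real.pi), (f x -
      ∑ j ∈ Finset.range (J + 1), Q j * Real.cos (j * x + ψ j))| ≤ ε * |2 * Real.pi - 0| := by
    rw [← Real.norm_eq_abs]
    exact intervalIntegral.norm_integral_le_of_norm_le_const fun x _ => hq x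
  rw [intervalIntegral.integral_sub (hf.intervalIntegrable _ _)
    (Continuous.intervalIntegrable (by fun_prop) _ _), h1, sub_zero, abs_of_pos (by positivity : 0 < 2 * Real.pi)] at h2
  have h3 : mn f - Q 0 * Real.cos (ψ 0) = (1 / (2 * Real.pi)) *
      ((∫ x in (0 : ℝ)..(2 * Real.pi), f x) - 2 * Real.pi * (Q 0 * Real.cos (ψ 0))) := by
    unfold mn
    field_simp
  rw [h3, abs_mul, abs_of_pos (by positivity : 0 < 1 / (2 * Real.pi))]
  have h4 := mul_le_mul_of_nonneg_left h2 (by positivity : 0 ≤ 1 / (2 * Real.pi))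
  refine h4.trans (le_of_eq ?_)
  field_simp

theorem aqf (hTPA : TpaStmt) (hBSL : BslStmt) : AqfStmt := by
  intro f G ε hf hG hε
  obtain ⟨J, a, c, hq0⟩ := hTPA f (ε / (3 * (G + 1))) hf (by positivity)
  choose Q ψ hQ0 hQ2 hQ using fun j : ℕ => amp (a j) (c j)
  have hq : ∀ θ, |f θ - ∑ j ∈ Finset.range (J + 1), Q j * Real.cos (j * θ + ψ j)| ≤
      ε / (3 * (G + 1)) := by
    intro θ
    have := hq0 θ
    simpa only [hQ] using this
  clear hq0
  set ε' := ε / (3 * (G + 1)) with hε'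
  have hε'0 : 0 < ε' := by positivity
  refine ⟨J, fun δ hδ => ?_⟩
  set sQ := ∑ j ∈ Finset.range (J + 1), Q j with hs1
  have hs0 : 0 ≤ sQ := Finset.sum_nonneg fun j _ => hQ0 j
  refine ⟨8 * G * sQ / (δ * ε) + 1, by positivity, ?_⟩
  intro X _ μ b om B m0 hO hN T hT w hw hwG S P V θ hS
  have hT0 : 0 < T := lt_of_lt_of_le (by positivity) hT
  choose A φ hA0 hA2 hA using fun k : ℕ => amp (V k) (-(P k))
  have hA2' : ∀ k, A k ^ 2 = P k ^ 2 + V k ^ 2 := fun k => by rw [hA2]; ring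
  have hfre : ∀ s x, fre b om S P V s x = ∑ k ∈ S, (A k * Real.cos (om k * s + φ k)) * b k x := by
    intro s x
    unfold fre
    refine Finset.sum_congr rfl fun k _ => ?_
    rw [← hA k]
    ring
  have hnn : nn S P V = ∑ k ∈ S, A k ^ 2 := by
    unfold nn
    exact Finset.sum_congr rfl fun k _ => (hA2' k).symm
  have hn0 : 0 ≤ nn S P V := by rw [hnn]; exact Finset.sum_nonneg fun k _ => sq_nonneg _
  set W : ℕ → ℕ → ℝ := fun k l => ∫ x, w x * b k x * b l x ∂μ with hWd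
  have hWs : ∀ k l, W k l = W l k := fun k l => by
    simp only [hWd]
    exact integral_congr_ae (Filter.Eventually.of_forall fun x => by simp only []; ring)
  have hW1 : ∀ k, ∑ l ∈ S, W k l ^ 2 ≤ G ^ 2 := fun k => w_sq hBSL hO w hw G hwG S k
  have hW2 : ∀ l, ∑ k ∈ S, W k l ^ 2 ≤ G ^ 2 := fun l => by
    have := hW1 l
    simpa only [hWs l] using this
  have hform : ∀ s, ∫ x, w x * fre b om S P V s x ^ 2 ∂μ = ∑ k ∈ S, ∑ l ∈ S,
      A k * Real.cos (om k * s + φ k) * (A l * Real.cos (om l * s + φ l)) * W k l := by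
    intro s
    simp only [hfre]
    exact form_eq hO w hw G hwG S _
  have hbd : ∀ s, |∫ x, w x * fre b om S P V s x ^ 2 ∂μ| ≤ G * nn S P V := by
    intro s
    simp only [hfre]
    refine (form_bd hBSL hO w G hwG S _).trans ?_
    rw [hnn]
    refine mul_le_mul_of_nonneg_left (Finset.sum_le_sum fun k _ => ?_) hG
    rw [mul_pow]
    have := Real.cos_sq_le_one (om k * s + φ k)
    nlinarith [sq_nonneg (A k)]
  set Qf : ℝ → ℝ := fun s => ∑ k ∈ S, ∑ l ∈ S,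
      A k * Real.cos (om k * s + φ k) * (A l * Real.cos (om l * s + φ l)) * W k l with hQf
  have hQc : Continuous Qf := by
    simp only [hQf]
    fun_prop
  have hQb : ∀ s, |Qf s| ≤ G * nn S P V := fun s => by
    have h := hbd s
    rw [hform s] at h
    exact h
  simp only [hform]
  show |(∫ s in (0 : ℝ)..T, f (om 0 * s + θ) * Qf s) -
      T * mn f * ∑ k ∈ S, (P k ^ 2 + V k ^ 2) / 2 * ∫ x, w x * b k x ^ 2 ∂μ| ≤ _
  have hWkk : ∀ k, ∫ x, w x * b k x ^ 2 ∂μ = W k k := fun k => by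
    simp only [hWd]
    exact integral_congr_ae (Filter.Eventually.of_forall fun x => by simp only []; ring)
  have hD : ∑ k ∈ S, (P k ^ 2 + V k ^ 2) / 2 * ∫ x, w x * b k x ^ 2 ∂μ =
      ∑ k ∈ S, A k ^ 2 / 2 * W k k := Finset.sum_congr rfl fun k _ => by rw [hWkk, hA2']
  rw [hD]
  set D := ∑ k ∈ S, A k ^ 2 / 2 * W k k with hDd
  -- bound of D
  have hWa : ∀ k ∈ S, |W k k| ≤ G := fun k hk => by
    have h1 := (Finset.single_le_sum (f := fun l => W k l ^ 2) (fun l _ => sq_nonneg _) hk).trans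
      (hW1 k)
    exact abs_le_of_sq_le_sq h1 hG
  have hDb : |D| ≤ G * nn S P V / 2 := by
    rw [hDd, hnn]
    refine (Finset.abs_sum_le_sum_abs _ _).trans ?_
    rw [Finset.mul_sum, Finset.sum_div]
    refine Finset.sum_le_sum fun k hk => ?_
    rw [abs_mul, abs_of_nonneg (by positivity : 0 ≤ A k ^ 2 / 2)]
    have := mul_le_mul_of_nonneg_left (hWa k hk) (by positivity : 0 ≤ A k ^ 2 / 2)
    linarith
  -- the approximation
  have hm := mean_q f ε' J Q ψ hf.1 hq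
  have hr : |∫ s in (0 : ℝ)..T, (f (om 0 * s + θ) -
      ∑ j ∈ Finset.range (J + 1), Q j * Real.cos (j * (om 0 * s + θ) + ψ j)) * Qf s| ≤
      ε' * (G * nn S P V) * |T - 0| := by
    rw [← Real.norm_eq_abs]
    refine intervalIntegral.norm_integral_le_of_norm_le_const fun s _ => ?_
    rw [Real.norm_eq_abs, abs_mul]
    exact mul_le_mul (hq _) (hQb s) (abs_nonneg _) hε'0.le
  have hfc := hf.1
  have hsplit : ∫ s in (0 : ℝ)..T, f (om 0 * s + θ) * Qf s =
      (∫ s in (0 : ℝ)..T, (f (om 0 * s + θ) -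
      ∑ j ∈ Finset.range (J + 1), Q j * Real.cos (j * (om 0 * s + θ) + ψ j)) * Qf s) +
      ∫ s in (0 : ℝ)..T, (∑ j ∈ Finset.range (J + 1), Q j * Real.cos (j * (om 0 * s + θ) + ψ j)) *
        Qf s := by
    rw [← intervalIntegral.integral_add
      (Continuous.intervalIntegrable (by fun_prop) _ _)
      (Continuous.intervalIntegrable (by fun_prop) _ _)]
    apply intervalIntegral.integral_congr
    intro s _
    simp only []
    ring
  have hE : |(∫ s in (0 : ℝ)..T, (∑ j ∈ Finset.range (J + 1),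
      Q j * Real.cos (j * (om 0 * s + θ) + ψ j)) * Qf s) - Q 0 * Real.cos (ψ 0) * T * D| ≤
      4 * G / δ * nn S P V * sQ := by
    have e1 := expand J S Q ψ A φ om W θ T
    have e2 := main_part J S Q A W T (fun j => j * θ + ψ j)
    simp only [Nat.cast_zero, zero_mul, zero_add] at e2
    rw [hQf, e1, hDd, ← e2, ← Finset.sum_sub_distrib]
    refine (Finset.abs_sum_le_sum_abs _ _).trans ?_
    rw [hs1, Finset.mul_sum]
    refine Finset.sum_le_sum fun j hj => ?_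
    have hj' : j ≤ J := Nat.lt_succ_iff.1 (Finset.mem_range.1 hj)
    have := osc_form hN S hS A φ hA0 W G hG hW1 hW2 j hj' (j * θ + ψ j) T
    have e3 : (∑ k ∈ S, ∑ l ∈ S, Q j * (A k * A l * W k l) *
        ∫ s in (0 : ℝ)..T, Real.cos (j * om 0 * s + (j * θ + ψ j)) * Real.cos (om k * s + φ k) *
          Real.cos (om l * s + φ l)) - ∑ k ∈ S, ∑ l ∈ S, Q j * (A k * A l * W k l) *
        (if j = 0 ∧ k = l then T / 2 * Real.cos (j * θ + ψ j) else 0) =
        Q j * ∑ k ∈ S, ∑ l ∈ S, (A k * A l * W k l) *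
      ((∫ s in (0 : ℝ)..T, Real.cos (j * om 0 * s + (j * θ + ψ j)) * Real.cos (om k * s + φ k) *
        Real.cos (om l * s + φ l)) -
        (if j = 0 ∧ k = l then T / 2 * Real.cos (j * θ + ψ j) else 0)) := by
      rw [Finset.mul_sum, ← Finset.sum_sub_distrib]
      refine Finset.sum_congr rfl fun k _ => ?_
      rw [Finset.mul_sum, ← Finset.sum_sub_distrib]
      refine Finset.sum_congr rfl fun l _ => ?_
      ring
    rw [e3, abs_mul, abs_of_nonneg (hQ0 j), mul_comm, hnn]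
    exact mul_le_mul_of_nonneg_right this (hQ0 j)
  rw [hsplit]
  set I1 := ∫ s in (0 : ℝ)..T, (f (om 0 * s + θ) -
      ∑ j ∈ Finset.range (J + 1), Q j * Real.cos (j * (om 0 * s + θ) + ψ j)) * Qf s
  set I2 := ∫ s in (0 : ℝ)..T, (∑ j ∈ Finset.range (J + 1),
      Q j * Real.cos (j * (om 0 * s + θ) + ψ j)) * Qf s
  have e5 : I1 + I2 - T * mn f * D = I1 + (I2 - Q 0 * Real.cos (ψ 0) * T * D) +
      -((mn f - Q 0 * Real.cos (ψ 0)) * (T * D)) := by ring
  rw [e5]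
  refine (abs_add_three _ _ _).trans ?_
  rw [abs_neg, abs_mul, abs_mul, abs_of_pos hT0]
  rw [sub_zero, abs_of_pos hT0] at hr
  have h6 : |mn f - Q 0 * Real.cos (ψ 0)| * (T * |D|) ≤ ε' * (T * (G * nn S P V / 2)) :=
    mul_le_mul hm (mul_le_mul_of_nonneg_left hDb hT0.le) (by positivity) hε'0.le
  have h7 : ε' * G ≤ ε / 3 := by
    rw [hε']
    rw [div_mul_eq_mul_div, div_le_div_iff₀ (by positivity) (by norm_num)]
    nlinarith
  have h8 : 4 * G / δ * sQ ≤ ε * T / 2 := by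
    have h9 : 8 * G * sQ / (δ * ε) ≤ T := by linarith
    rw [div_le_iff₀ (by positivity)] at h9
    rw [div_mul_eq_mul_div, div_le_iff₀ hδ]
    nlinarith
  have h9 : 4 * G / δ * nn S P V * sQ ≤ ε * T / 2 * nn S P V := by
    have := mul_le_mul_of_nonneg_right h8 hn0
    linarith
  have h10 : ε' * (G * nn S P V) * T + ε' * (T * (G * nn S P V / 2)) ≤ ε * T / 2 * nn S P V := by
    have := mul_le_mul_of_nonneg_right h7 (mul_nonneg hT0.le hn0)
    nlinarith
  linarith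

end Pool.Agent.BEW.H59
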